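import Pool.Agent.X328.LP.Sig4

/-!
# The `Σ`-Leopoldt conjecture for quaternion and dicyclic extensions of imaginary quadratic fields

Let `k` be an imaginary quadratic field in which `p` splits, `i₀ : k → ℚ_p` an embedding, `K` a
number field containing `k` and `S` the set of the embeddings of `K` into `ℂ_p` which extend `i₀`. If `K`
is a quadratic extension of a totally real field `F` then `S` is a CM type, and it is ordinary. Let
`H ⊇ K` be Galois over `k`, with group `G`.

(1) If `f` is a central idempotent of `ℚ_p[G]` such that `f ℚ_p[G]` has no nilpotent elements, then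
the `S`-Leopoldt conjecture holds for all characters `χ` of `Gal(H / K)` which belong to `f`.

(2) If `p = 2` and `G` is the product of the quaternion group of order `8` with an elementary abelian
`2`-group, then the conjecture holds for all characters of `Gal(H / K)`. For example `K` is
biquadratic, `H / K` is cyclic of degree `4` and `H / k` is a quaternion extension.

(3) Let `p ≡ 3 (mod 4)` and let `G` be the dicyclic group of order `4 p`, `[K : k] = 2`. Then the
conjecture holds for the faithful characters of the cyclic group `Gal(H / K)` of order `2 p`.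

If `[K : k] = 2` and `χ` is faithful (as in (3)) then the representation induced from `χ` to `G` is
irreducible of degree two, and for real quadratic `F` the statement is the nonvanishing of a
`2 × 2` determinant, for which in general one needs the four exponentials conjecture.

Proof. As `i₀` has values in `ℚ_p`, the kernel of the logarithms `log σ`, `σ` over `i₀`, on
`ℂ_p ⊗ 𝓞_H^×` is spanned by vectors in `ℚ_p ⊗ 𝓞_H^×`. The latter form a left ideal `N` of
`ℚ_p[G]` (applied to a Minkowski unit `u`). As `f ℚ_p[G]` is a product of division algebras, there is a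
central idempotent `z` with `z f u` in the kernel and `N f u = N z f u`; the coefficients of `z f` are
algebraic numbers, and `z f u = 0` by Brumer's theorem. In (3) the algebra is the quaternion algebra
`(ℚ_p(ζ_p) / ℚ_p(ζ_p)⁺, -1)`, which has no zero divisors because `-1` is not a square modulo `p`.
-/

set_option autoImplicit false

namespace Pool.Agent.Results.MP_fc6b1e_nt.OrdinaryTypes

open NumberField Module MonoidAlgebra Pool.Agent.W289.SL

/-- the sum of the `χ(τ)⁻¹ τ`, `τ` in `Gal(H / K)`, in the group algebra of `Gal(H / k)` -/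
noncomputable def charSum (p : ℕ) [Fact p.Prime] (k K H : Type) [Field k] [NumberField k] [Field K]
    [NumberField K] [Field H] [NumberField H] [Algebra k K] [Algebra K H] [Algebra k H]
    [IsScalarTower k K H] (χ : (H ≃ₐ[K] H) →* ℂ_[p]ˣ) : MonoidAlgebra ℂ_[p] (H ≃ₐ[k] H) :=
  ∑ τ : H ≃ₐ[K] H, single (τ.restrictScalars k) (((χ τ)⁻¹ : ℂ_[p]ˣ) : ℂ_[p])

/-- `f` is a central idempotent of the group algebra, `f ℚ_p[G]` has no nilpotent elements, and `χ`
belongs to `f`: the product of `f` and `charSum χ` is `charSum χ`. -/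
def Belongs (p : ℕ) [Fact p.Prime] (k K H : Type) [Field k] [NumberField k] [Field K]
    [NumberField K] [Field H] [NumberField H] [Algebra k K] [Algebra K H] [Algebra k H]
    [IsScalarTower k K H] (χ : (H ≃ₐ[K] H) →* ℂ_[p]ˣ) (f : MonoidAlgebra ℚ_[p] (H ≃ₐ[k] H)) :
    Prop :=
  f * f = f ∧ (∀ r, f * r = r * f) ∧ (∀ x, f * x = x → x * x = 0 → x = 0) ∧
    MonoidAlgebra.mapRingHom _ (algebraMap ℚ_[p] ℂ_[p]) f * charSum p k K H χ =
      charSum p k K H χ

/-- **Main result.** -/
theorem result (p : ℕ) [Fact p.Prime] (k K H : Type) [Field k] [NumberField k] [Field K]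
    [NumberField K] [Field H] [NumberField H] [Algebra k K] [Algebra K H] [Algebra k H]
    [IsScalarTower k K H] [IsGalois k H] [IsTotallyComplex k] (hk : finrank ℚ k = 2)
    (i₀ : k →+* ℚ_[p]) (S : Set (K →+* ℂ_[p]))
    (hS : ∀ τ : K →+* ℂ_[p], τ ∈ S ↔
      τ.comp (algebraMap k K) = (algebraMap ℚ_[p] ℂ_[p]).comp i₀) :
    (∀ (F : Type) [Field F] [NumberField F] [Algebra F K], IsTotallyReal F → finrank F K = 2 →
      IsCMType p F K S) ∧
    (∀ (χ : (H ≃ₐ[K] H) →* ℂ_[p]ˣ) (f : MonoidAlgebra ℚ_[p] (H ≃ₐ[k] H)),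
      Belongs p k K H χ f → SigmaLeopoldt p K H S χ) ∧
    (p = 2 → ∀ m : ℕ,
      Nonempty ((H ≃ₐ[k] H) ≃* QuaternionGroup 2 × (Fin m → Multiplicative (ZMod 2))) →
      ∀ χ : (H ≃ₐ[K] H) →* ℂ_[p]ˣ, SigmaLeopoldt p K H S χ) ∧
    (p % 4 = 3 → Nonempty ((H ≃ₐ[k] H) ≃* QuaternionGroup p) → finrank K H = 2 * p →
      ∀ χ : (H ≃ₐ[K] H) →* ℂ_[p]ˣ, Function.Injective χ → SigmaLeopoldt p K H S χ) := by
  have hk0 := Pool.Agent.X328.LP.rank_zero hk
  refine ⟨fun F _ _ _ hF hFK => Pool.Agent.X328.LP.isCMType_of hk hFK _ hS, ?_, ?_, ?_⟩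
  · rintro χ f ⟨h1, h2, h3, h4⟩
    exact Pool.Agent.X328.LP.sigma_main i₀ hS hk0 h1 h2 h3 χ fun x hx =>
      Pool.Agent.X328.LP.act_of_charSum hx h4
  · rintro rfl m ⟨φ⟩ χ
    exact Pool.Agent.X328.LP.sigma_quat i₀ hS hk0 φ χ
  · rintro h34 ⟨φ⟩ hdeg χ hχ
    exact Pool.Agent.X328.LP.sigma_dic i₀ hS h34 hk0 φ hdeg χ hχ

end Pool.Agent.Results.MP_fc6b1e_nt.OrdinaryTypes
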