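import Pool.Agent.X156.LD.Sg2

/-!
# The kernels of the `Σ`-logarithms for all characters of `Gal(H / K)`
-/

set_option autoImplicit false
set_option linter.unusedSectionVars false

namespace Pool.Agent.Results.MP_fc6b1e_nt.SumsOverCharacters

open NumberField Module Pool.Agent.X156.LD Pool.Agent.X328.LP Pool.Agent.W289.SL

/-- the embeddings of `K` which extend `i₀` -/
def typeOver {p : ℕ} [Fact p.Prime] {k : Type} [Field k] (i₀ : k →+* ℚ_[p]) (K : Type) [Field K]
    [Algebra k K] : Set (K →+* ℂ_[p]) :=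
  {τ | τ.comp (algebraMap k K) = (algebraMap ℚ_[p] ℂ_[p]).comp i₀}

/-- `x` is in the kernel of the logarithms on the `χ`-part -/
def InKernel {p : ℕ} [Fact p.Prime] {L : ℂ_[p] → ℂ_[p]} (hL : IsIwasawaLog p L) {K H : Type}
    [Field K] [Field H] [NumberField H] [Algebra K H] (S : Set (K →+* ℂ_[p]))
    (χ : (H ≃ₐ[K] H) →* ℂ_[p]ˣ) (x : UM p H) : Prop :=
  (∀ τ : H ≃ₐ[K] H, actLin p (τ : H →+* H) x = ((χ τ : ℂ_[p]ˣ) : ℂ_[p]) • x) ∧
    ∀ σ : H →+* ℂ_[p], σ.comp (algebraMap K H) ∈ S → logLin hL σ x = 0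

/-- the sum of the dimensions of the kernels, over all characters of `Gal(H / K)` -/
noncomputable def total {p : ℕ} [Fact p.Prime] {L : ℂ_[p] → ℂ_[p]} (hL : IsIwasawaLog p L)
    (K H : Type) [Field K] [Field H] [NumberField H] [Algebra K H] (S : Set (K →+* ℂ_[p])) : ℕ :=
  ∑ᶠ χ : (H ≃ₐ[K] H) →* ℂ_[p]ˣ, finrank ℂ_[p] (Submodule.span ℂ_[p] {x | InKernel hL S χ x})

lemma span_eq {p : ℕ} [Fact p.Prime] {L : ℂ_[p] → ℂ_[p]} (hL : IsIwasawaLog p L) {K H : Type}
    [Field K] [NumberField K] [Field H] [NumberField H] [Algebra K H] (S : Set (K →+* ℂ_[p]))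
    (χ : (H ≃ₐ[K] H) →* ℂ_[p]ˣ) :
    Submodule.span ℂ_[p] {x | InKernel hL S χ x} = sigmaKernel hL K H S χ := by
  have h1 : {x | InKernel hL S χ x} = (sigmaKernel hL K H S χ : Set (UM p H)) := rfl
  rw [h1, Submodule.span_eq]

lemma total_eq {p : ℕ} [Fact p.Prime] {L : ℂ_[p] → ℂ_[p]} (hL : IsIwasawaLog p L) (K H : Type)
    [Field K] [NumberField K] [Field H] [NumberField H] [Algebra K H] (S : Set (K →+* ℂ_[p])) :
    total hL K H S =
      ∑ᶠ χ : (H ≃ₐ[K] H) →* ℂ_[p]ˣ, finrank ℂ_[p] (sigmaKernel hL K H S χ) := by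
  unfold total
  exact finsum_congr fun χ => by rw [span_eq hL S χ]

/-- `S = typeOver i₀ K` is a CM type if `K` is quadratic over a totally real field -/
def CMTypes {p : ℕ} [Fact p.Prime] (K : Type) [Field K] (S : Set (K →+* ℂ_[p])) : Prop :=
  ∀ (F : Type) [Field F] [NumberField F] [Algebra F K], IsTotallyReal F → finrank F K = 2 →
    IsCMType p F K S

/-- **The kernels of the `Σ`-logarithms for all characters.**

Let `k` be an imaginary quadratic field with an embedding `i₀` into `ℚ_p` (`p` splits), `K ⊇ k` a number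
field and `S` the set of the embeddings of `K` into `ℂ_p` which extend `i₀`; if `K` is a quadratic
extension of a totally real field then `S` is a CM type. Let `H ⊇ K` be Galois over `k` with group
`G`, and abelian over `K`. Let `δ` be the sum, over all characters `χ` of `Gal(H / K)`, of the
dimensions of the kernels of `x ↦ (log σ(x))` on the `χ`-part of `ℂ_p ⊗ 𝓞_H^×`.

(1) If `G` is a `q`-group then `q [ℚ_p(ζ_q) : ℚ_p]` divides `δ`.

(2) `δ` is a sum of dimensions of irreducible representations `τ` of `G` over `ℚ_p` which are not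
one-dimensional over their endomorphisms. -/
theorem result (p q : ℕ) [Fact p.Prime] [Fact q.Prime] (k K H : Type) [Field k]
    [NumberField k] [Field K] [NumberField K] [Field H] [NumberField H] [Algebra k K]
    [Algebra K H] [Algebra k H] [IsScalarTower k K H] [IsGalois k H] [IsTotallyComplex k]
    (hk : finrank ℚ k = 2) (i₀ : k →+* ℚ_[p])
    (hA : ∀ g h : H ≃ₐ[K] H, g * h = h * g) (L : ℂ_[p] → ℂ_[p]) (hL : IsIwasawaLog p L) :
    CMTypes K (typeOver i₀ K) ∧
    (IsPGroup q (H ≃ₐ[k] H) → ∀ ζ : ℂ_[p], IsPrimitiveRoot ζ q →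
      q * (minpoly ℚ_[p] ζ).natDegree ∣ total hL K H (typeOver i₀ K)) ∧
    (∀ M : AddSubmonoid ℕ, IrrMem ℚ_[p] (⊥ : Subgroup (H ≃ₐ[k] H)) ⊥ M →
      total hL K H (typeOver i₀ K) ∈ M) := by
  have hk0 := Pool.Agent.X328.LP.rank_zero hk
  have hS : ∀ τ : K →+* ℂ_[p], τ ∈ typeOver i₀ K ↔
      τ.comp (algebraMap k K) = (algebraMap ℚ_[p] ℂ_[p]).comp i₀ := fun τ => Iff.rfl
  refine ⟨fun F _ _ _ hF hFK => Pool.Agent.X328.LP.isCMType_of hk hFK _ hS, ?_, ?_⟩
  · intro hG ζ hζ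
    rw [total_eq, sum_sigma i₀ hL _ hS hA]
    exact sigma_pgroup i₀ hL hk0 hG hζ
  · intro M hM
    rw [total_eq, sum_sigma i₀ hL _ hS hA]
    exact mem_sigma' i₀ hL hk0 M hM

end Pool.Agent.Results.MP_fc6b1e_nt.SumsOverCharacters
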